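import Pool.Agent.D0H91.UB.Stm

/-! # Common facts on sequences of mean one -/

set_option autoImplicit false

namespace Pool.Agent.D0H12.UB

open Finset Filter
open Pool.Agent.D0H91.UB

theorem ev_log (k : ℕ) (c : ℝ) : ∀ᶠ N : ℕ in atTop, c * Real.log N ^ k ≤ N := by
  have h := (Real.isLittleO_pow_log_id_atTop (n := k)).bound (c := 1 / (|c| + 1)) (by positivity)
  have h2 := tendsto_natCast_atTop_atTop (R := ℝ) |>.eventually h
  filter_upwards [h2] with N hN
  have hl : 0 ≤ Real.log N ^ k := pow_nonneg (Real.log_natCast_nonneg N) k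
  simp only [id] at hN
  rw [Real.norm_of_nonneg hl, Real.norm_of_nonneg (Nat.cast_nonneg N), div_mul_eq_mul_div, one_mul,
    le_div_iff₀ (by positivity)] at hN
  have h3 := le_abs_self c
  nlinarith

theorem ev_L (c : ℝ) : ∀ᶠ N : ℕ in atTop, c ≤ Real.log N :=
  (Real.tendsto_log_atTop.comp tendsto_natCast_atTop_atTop).eventually_ge_atTop c

/-- the sums up to all `x ≤ N` -/
theorem mean_unif (a : ℕ → ℝ) (ha : Mean1 a) (K : ℕ) : ∃ C : ℝ, 0 ≤ C ∧ ∀ᶠ N : ℕ in atTop,
    ∀ x ≤ N, |∑ m ∈ Icc 1 x, a m - x| ≤ C * N / Real.log N ^ K := by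
  obtain ⟨C0, hC0⟩ := ha K
  have hC1 : ∀ N : ℕ, 2 ≤ N → |∑ m ∈ Icc 1 N, a m - N| ≤ |C0| * N / Real.log N ^ K := by
    intro N hN
    refine (hC0 N hN).trans ?_
    have : 0 < Real.log N := Real.log_pos (by exact_mod_cast hN)
    gcongr
    exact le_abs_self _
  refine ⟨2 ^ K * |C0| + 1, by positivity, ?_⟩
  obtain ⟨Q, hQ⟩ : ∃ Q : ℝ, Q = |C0| / (Real.log 2) ^ K + |a 1 - 1| := ⟨_, rfl⟩
  have hl2 : 0 < Real.log 2 := Real.log_pos (by norm_num)
  have hQ0 : 0 ≤ Q := by rw [hQ]; positivity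
  filter_upwards [ev_log (2 * K) (Q ^ 2), ev_L 1, eventually_ge_atTop 2] with N h1 h2 h3 x hx
  have hN0 : (0 : ℝ) < N := by exact_mod_cast (by omega : 0 < N)
  have hL : 0 < Real.log N := by linarith
  have hLK : 0 < Real.log N ^ K := by positivity
  -- `Q √N ≤ N / L ^ K`
  have hs : Q * √(N : ℝ) ≤ N / Real.log N ^ K := by
    rw [le_div_iff₀ hLK]
    have h4 : Q * Real.log N ^ K ≤ √(N : ℝ) := by
      apply Real.le_sqrt_of_sq_le
      rw [mul_pow, ← pow_mul, mul_comm K 2]
      exact h1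
    calc Q * √(N : ℝ) * Real.log N ^ K = (Q * Real.log N ^ K) * √(N : ℝ) := by ring
      _ ≤ √(N : ℝ) * √(N : ℝ) := by gcongr
      _ = N := Real.mul_self_sqrt hN0.le
  have hgoal : (N : ℝ) / Real.log N ^ K ≤ (2 ^ K * |C0| + 1) * N / Real.log N ^ K := by
    gcongr
    have : 0 ≤ 2 ^ K * |C0| * N := by positivity
    linarith
  rcases Nat.lt_or_ge x 2 with hx2 | hx2
  · interval_cases x
    · simp
      positivity
    · refine le_trans ?_ hgoal
      refine le_trans ?_ hs
      have h5 : 1 ≤ √(N : ℝ) := by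
        rw [Real.one_le_sqrt]
        exact_mod_cast (by omega : 1 ≤ N)
      have h6 : |∑ m ∈ Icc 1 1, a m - ((1 : ℕ) : ℝ)| ≤ Q := by
        rw [hQ]
        simp
        positivity
      calc _ ≤ Q := h6
        _ = Q * 1 := (mul_one _).symm
        _ ≤ Q * √(N : ℝ) := by gcongr
  · have hx0 : (0 : ℝ) < x := by exact_mod_cast (by omega : 0 < x)
    have hlx : 0 < Real.log x := Real.log_pos (by exact_mod_cast hx2)
    by_cases hxx : (x : ℝ) ≤ √(N : ℝ)
    · refine le_trans ?_ hgoal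
      refine le_trans ?_ hs
      refine (hC1 x hx2).trans ?_
      have h7 : Real.log 2 ≤ Real.log x := Real.log_le_log (by norm_num) (by exact_mod_cast hx2)
      calc |C0| * x / Real.log x ^ K ≤ |C0| * x / (Real.log 2) ^ K := by gcongr
        _ = |C0| / (Real.log 2) ^ K * x := by ring
        _ ≤ Q * x := by
            gcongr
            rw [hQ]
            have := abs_nonneg (a 1 - 1)
            linarith
        _ ≤ Q * √(N : ℝ) := by gcongr
    · push Not at hxx
      have h8 : Real.log N / 2 ≤ Real.log x := by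
        rw [← Real.log_sqrt hN0.le]
        exact Real.log_le_log (Real.sqrt_pos.2 hN0) hxx.le
      refine (hC1 x hx2).trans ?_
      have hxN : (x : ℝ) ≤ N := by exact_mod_cast hx
      calc |C0| * x / Real.log x ^ K ≤ |C0| * N / (Real.log N / 2) ^ K := by gcongr
        _ = 2 ^ K * |C0| * N / Real.log N ^ K := by
            rw [div_pow]
            field_simp
        _ ≤ (2 ^ K * |C0| + 1) * N / Real.log N ^ K := by
            gcongr
            linarith

/-- it is enough to consider large `N` -/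
theorem mean1_of_ev (a : ℕ → ℝ) (h : ∀ A : ℕ, ∃ C : ℝ, ∀ᶠ N : ℕ in atTop,
    |∑ m ∈ Icc 1 N, a m - N| ≤ C * N / Real.log N ^ A) : Mean1 a := by
  intro A
  obtain ⟨C, hC⟩ := h A
  obtain ⟨N0, hN0⟩ := eventually_atTop.1 hC
  refine ⟨|C| + ∑ x ∈ range N0, |∑ m ∈ Icc 1 x, a m - x| * |Real.log x| ^ A, fun N hN => ?_⟩
  have hl : 0 < Real.log N := Real.log_pos (by exact_mod_cast hN)
  have hN1 : (1 : ℝ) ≤ N := by exact_mod_cast (by omega : 1 ≤ N)
  have hs0 : 0 ≤ ∑ x ∈ range N0, |∑ m ∈ Icc 1 x, a m - x| * |Real.log x| ^ A :=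
    sum_nonneg fun x _ => by positivity
  rcases Nat.lt_or_ge N N0 with h1 | h1
  · rw [le_div_iff₀ (by positivity)]
    have h2 := single_le_sum (f := fun x : ℕ => |∑ m ∈ Icc 1 x, a m - x| * |Real.log x| ^ A)
      (fun x _ => by positivity) (mem_range.2 h1)

    rw [abs_of_pos hl] at h2
    have h3 : 0 ≤ |C| := abs_nonneg C
    nlinarith
  · refine (hN0 N h1).trans ?_
    have := le_abs_self C
    gcongr
    linarith

end Pool.Agent.D0H12.UB
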