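import Pool.Agent.D0H12.UB.Com

/-! # IPW: the weights of the iterated primes -/

set_option autoImplicit false

namespace Pool.Agent.D0H12.UB

open Finset Filter
open Pool.Agent.D0H91.UB

/-- `log p_j` -/
noncomputable def lp (j : ℕ) : ℝ := Real.log (Nat.nth Nat.Prime (j - 1) : ℕ)

theorem pi_succ_prime (x : ℕ) (h : (x + 1).Prime) :
    Nat.primeCounting (x + 1) = Nat.primeCounting x + 1 := by
  unfold Nat.primeCounting Nat.primeCounting'
  rw [Nat.count_succ, if_pos h]

theorem pi_succ_not (x : ℕ) (h : ¬ (x + 1).Prime) :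
    Nat.primeCounting (x + 1) = Nat.primeCounting x := by
  unfold Nat.primeCounting Nat.primeCounting'
  rw [Nat.count_succ, if_neg h, add_zero]

theorem nth_pi (m : ℕ) (h : m.Prime) : Nat.nth Nat.Prime (Nat.primeCounting m - 1) = m := by
  unfold Nat.primeCounting Nat.primeCounting'
  rw [Nat.count_succ, if_pos h, Nat.add_sub_cancel, Nat.nth_count h]

theorem pi_le (m : ℕ) : Nat.primeCounting m ≤ m := by
  induction m with
  | zero => simp
  | succ m ih =>
    by_cases h : (m + 1).Prime
    · rw [pi_succ_prime m h]; omega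
    · rw [pi_succ_not m h]; omega

theorem sum_pi (f : ℕ → ℝ) (x : ℕ) :
    ∑ m ∈ Icc 1 x, (if m.Prime then Real.log m * f (Nat.primeCounting m) else 0) =
      ∑ j ∈ Icc 1 (Nat.primeCounting x), f j * lp j := by
  induction x with
  | zero => simp
  | succ x ih =>
    rw [sum_Icc_succ_top (by omega), ih]
    by_cases h : (x + 1).Prime
    · rw [if_pos h, pi_succ_prime x h, sum_Icc_succ_top (by omega), ← pi_succ_prime x h]
      congr 1
      unfold lp
      rw [nth_pi _ h]
      ring
    · rw [if_neg h, pi_succ_not x h, add_zero]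

theorem lp_mono {i j : ℕ} (h : i ≤ j) : lp i ≤ lp j := by
  unfold lp
  apply Real.log_le_log
  · exact_mod_cast (Nat.prime_nth_prime _).pos
  · exact_mod_cast Nat.nth_monotone Nat.infinite_setOfPred_prime (by omega)

theorem lp_nonneg (j : ℕ) : 0 ≤ lp j := Real.log_natCast_nonneg _

theorem lp_pi_le (x : ℕ) (hJ : 1 ≤ Nat.primeCounting x) : lp (Nat.primeCounting x) ≤ Real.log x := by
  unfold lp
  apply Real.log_le_log
  · exact_mod_cast (Nat.prime_nth_prime _).pos
  · have h : Nat.nth Nat.Prime (Nat.primeCounting x - 1) < x + 1 := by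
      apply Nat.nth_lt_of_lt_count
      show _ < Nat.primeCounting x
      omega
    exact_mod_cast (by omega : Nat.nth Nat.Prime (Nat.primeCounting x - 1) ≤ x)

/-- partial summation -/
theorem abel_lp (b : ℕ → ℝ) (J : ℕ) :
    ∑ j ∈ Icc 1 (J + 1), b j * lp j = (∑ j ∈ Icc 1 (J + 1), b j) * lp (J + 1) -
      ∑ j ∈ Icc 1 J, (∑ i ∈ Icc 1 j, b i) * (lp (j + 1) - lp j) := by
  induction J with
  | zero => simp
  | succ J ih =>
    rw [sum_Icc_succ_top (by omega), ih, sum_Icc_succ_top (by omega) (f := b) (b := J + 1),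
      sum_Icc_succ_top (by omega) (f := fun j => (∑ i ∈ Icc 1 j, b i) * (lp (j + 1) - lp j))]
    ring

theorem tele_lp (J : ℕ) : ∑ j ∈ Icc 1 J, (lp (j + 1) - lp j) = lp (J + 1) - lp 1 := by
  induction J with
  | zero => simp
  | succ J ih =>
    rw [sum_Icc_succ_top (by omega), ih]
    ring

theorem abel_bound (b : ℕ → ℝ) (x : ℕ) (E : ℝ) (hE : 0 ≤ E)
    (hb : ∀ j ≤ x, |∑ i ∈ Icc 1 j, b i| ≤ E) :
    |∑ j ∈ Icc 1 (Nat.primeCounting x), b j * lp j| ≤ 2 * E * Real.log x := by
  have hlx : 0 ≤ Real.log x := Real.log_natCast_nonneg x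
  rcases Nat.eq_zero_or_pos (Nat.primeCounting x) with h0 | h0
  · rw [h0]
    simp
    positivity
  · have hlp := lp_pi_le x h0
    have hJx := pi_le x
    obtain ⟨J, hJ⟩ : ∃ J, Nat.primeCounting x = J + 1 := ⟨Nat.primeCounting x - 1, by omega⟩
    rw [hJ] at hlp hJx ⊢
    rw [abel_lp]
    have h1 : |(∑ j ∈ Icc 1 (J + 1), b j) * lp (J + 1)| ≤ E * Real.log x := by
      rw [abs_mul, abs_of_nonneg (lp_nonneg _)]
      exact mul_le_mul (hb _ hJx) hlp (lp_nonneg _) hE
    have h2 : |∑ j ∈ Icc 1 J, (∑ i ∈ Icc 1 j, b i) * (lp (j + 1) - lp j)| ≤ E * Real.log x := by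
      refine (abs_sum_le_sum_abs _ _).trans ?_
      calc ∑ j ∈ Icc 1 J, |(∑ i ∈ Icc 1 j, b i) * (lp (j + 1) - lp j)|
          ≤ ∑ j ∈ Icc 1 J, E * (lp (j + 1) - lp j) := by
            apply sum_le_sum
            intro j hj
            rw [mem_Icc] at hj
            have h3 : 0 ≤ lp (j + 1) - lp j := sub_nonneg.2 (lp_mono (Nat.le_succ j))
            rw [abs_mul, abs_of_nonneg h3]
            gcongr
            exact hb j (by omega)
        _ = E * (lp (J + 1) - lp 1) := by rw [← mul_sum, tele_lp]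
        _ ≤ E * Real.log x := by
            gcongr
            have := lp_nonneg 1
            linarith
    refine (abs_sub _ _).trans ?_
    linarith

theorem WP_nonneg (a m : ℕ) : 0 ≤ WP a m := by
  induction a generalizing m with
  | zero =>
    unfold WP
    split_ifs
    · exact Real.log_natCast_nonneg m
    · exact le_rfl
  | succ a ih =>
    unfold WP
    split_ifs
    · exact mul_nonneg (Real.log_natCast_nonneg m) (ih _)
    · exact le_rfl

theorem WP_le (a m : ℕ) : WP a m ≤ Real.log (m + 3) ^ (a + 1) := by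
  have hl : ∀ m : ℕ, 0 ≤ Real.log ((m : ℝ) + 3) := fun m => Real.log_nonneg (by
    have : (0 : ℝ) ≤ m := Nat.cast_nonneg m
    linarith)
  have hlm : ∀ m : ℕ, m.Prime → Real.log m ≤ Real.log ((m : ℝ) + 3) := fun m hm =>
    Real.log_le_log (by exact_mod_cast hm.pos) (by linarith)
  induction a generalizing m with
  | zero =>
    unfold WP
    split_ifs with h
    · rw [zero_add, pow_one]
      exact hlm m h
    · exact pow_nonneg (hl m) _
  | succ a ih =>
    unfold WP
    split_ifs with h
    · have h1 := ih (Nat.primeCounting m)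
      have h2 : Real.log ((Nat.primeCounting m : ℝ) + 3) ≤ Real.log ((m : ℝ) + 3) := by
        apply Real.log_le_log
        · have : (0 : ℝ) ≤ Nat.primeCounting m := Nat.cast_nonneg _
          linarith
        · have : (Nat.primeCounting m : ℝ) ≤ m := by exact_mod_cast pi_le m
          linarith
      calc Real.log m * WP a (Nat.primeCounting m)
          ≤ Real.log ((m : ℝ) + 3) * Real.log ((Nat.primeCounting m : ℝ) + 3) ^ (a + 1) :=
            mul_le_mul (hlm m h) h1 (WP_nonneg _ _) (hl m)
        _ ≤ Real.log ((m : ℝ) + 3) * Real.log ((m : ℝ) + 3) ^ (a + 1) := by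
            have h3 := hl m
            have h4 := hl (Nat.primeCounting m)
            gcongr
        _ = _ := by ring
    · exact pow_nonneg (hl m) _

theorem WP_ip (a m : ℕ) (h : WP a m ≠ 0) : ∃ i : ℕ, 0 < i ∧ ip a i = m := by
  induction a generalizing m with
  | zero =>
    unfold WP at h
    split_ifs at h with hm
    · refine ⟨Nat.primeCounting m, ?_, ?_⟩
      · rw [Nat.pos_iff_ne_zero, Ne, Nat.primeCounting_eq_zero_iff]
        have := hm.two_le
        omega
      · show Nat.nth Nat.Prime (Nat.primeCounting m - 1) = m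
        exact nth_pi m hm
    · exact absurd rfl h
  | succ a ih =>
    unfold WP at h
    split_ifs at h with hm
    · obtain ⟨i, hi, hip⟩ := ih (Nat.primeCounting m) (fun h0 => h (by rw [h0, mul_zero]))
      refine ⟨i, hi, ?_⟩
      unfold ip at hip ⊢
      rw [Function.iterate_succ_apply', hip]
      exact nth_pi m hm
    · exact absurd rfl h

theorem WP_mean (h0 : Mean1 (WP 0)) (a : ℕ) : Mean1 (WP a) := by
  induction a with
  | zero => exact h0
  | succ a ih =>
    apply mean1_of_ev
    intro A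
    obtain ⟨C0, hC0⟩ := h0 A
    obtain ⟨C, hC, hev⟩ := mean_unif (WP a) ih (A + 1)
    refine ⟨C0 + 2 * C, ?_⟩
    filter_upwards [hev, eventually_ge_atTop 2] with x h1 h2
    have hlx : 0 < Real.log x := Real.log_pos (by exact_mod_cast h2)
    have hx0 : (0 : ℝ) < x := by exact_mod_cast (by omega : 0 < x)
    have e1 : ∑ m ∈ Icc 1 x, WP (a + 1) m = ∑ j ∈ Icc 1 (Nat.primeCounting x), WP a j * lp j := by
      rw [← sum_pi]
      rfl
    have e2 : ∑ m ∈ Icc 1 x, WP 0 m = ∑ j ∈ Icc 1 (Nat.primeCounting x), (1 : ℝ) * lp j := by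
      rw [← sum_pi (fun _ => 1)]
      apply sum_congr rfl
      intro m _
      show (if m.Prime then Real.log m else 0) = _
      rw [mul_one]
    have e3 : ∑ m ∈ Icc 1 x, WP (a + 1) m - x = (∑ m ∈ Icc 1 x, WP 0 m - x) +
        ∑ j ∈ Icc 1 (Nat.primeCounting x), (WP a j - 1) * lp j := by
      rw [e1, e2]
      have : ∑ j ∈ Icc 1 (Nat.primeCounting x), (WP a j - 1) * lp j =
          ∑ j ∈ Icc 1 (Nat.primeCounting x), WP a j * lp j -
          ∑ j ∈ Icc 1 (Nat.primeCounting x), (1 : ℝ) * lp j := by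
        rw [← sum_sub_distrib]
        apply sum_congr rfl
        intro j _
        ring
      rw [this]
      ring
    have h3 := abel_bound (fun j => WP a j - 1) x (C * x / Real.log x ^ (A + 1))
      (by positivity) (by
        intro j hj
        have h4 := h1 j hj
        have e4 : ∑ i ∈ Icc 1 j, (WP a i - 1) = ∑ i ∈ Icc 1 j, WP a i - j := by
          rw [sum_sub_distrib]
          simp
        rw [e4]
        exact h4)
    have h5 := hC0 x h2
    rw [e3]
    refine (abs_add_le _ _).trans ((add_le_add h5 h3).trans (le_of_eq ?_))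
    field_simp
    ring

theorem t_IPW : S_IPW := fun h0 a => ⟨WP_mean h0 a, WP_nonneg a, WP_le a, fun m h => WP_ip a m h⟩

end Pool.Agent.D0H12.UB
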