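import Pool.Agent.D0H91.UB.Stm

/-! # PAR: Parseval for the additive convolution -/

set_option autoImplicit false

namespace Pool.Agent.D0H12.UB

open Finset MeasureTheory Filter
open scoped ENNReal
open Pool.Agent.H376R2.MR (er)
open Pool.Agent.D0H91.UB

theorem er_norm (t x : ℝ) : ‖er t x‖ = 1 := by
  unfold er
  exact Complex.norm_exp_ofReal_mul_I _

theorem er_add (t x y : ℝ) : er t (x + y) = er t x * er t y := by
  unfold er
  rw [← Complex.exp_add]
  congr 1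
  push_cast
  ring

theorem er_conj (t x : ℝ) : (starRingEnd ℂ) (er t x) = er t (-x) := by
  unfold er
  rw [← Complex.exp_conj, map_mul, Complex.conj_ofReal, Complex.conj_I]
  congr 1
  push_cast
  ring

theorem er_cont (x : ℝ) : Continuous fun t => er t x := by
  unfold er
  fun_prop

theorem int_er (k : ℤ) : ∫ θ in (0 : ℝ)..(2 * Real.pi), er θ (k : ℝ) =
    if k = 0 then ((2 * Real.pi : ℝ) : ℂ) else 0 := by
  by_cases hk : k = 0
  · rw [if_pos hk, hk]
    unfold er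
    simp
  · rw [if_neg hk]
    have hk' : ((k : ℂ) * Complex.I) ≠ 0 := mul_ne_zero (by exact_mod_cast hk) Complex.I_ne_zero
    have h1 : ∀ θ : ℝ, er θ (k : ℝ) = Complex.exp (((k : ℂ) * Complex.I) * θ) := by
      intro θ
      unfold er
      congr 1
      push_cast
      ring
    simp only [h1]
    rw [integral_exp_mul_complex hk']
    have h2 : Complex.exp ((k : ℂ) * Complex.I * ((2 * Real.pi : ℝ) : ℂ)) = 1 := by
      rw [← Complex.exp_int_mul_two_pi_mul_I k]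
      congr 1
      push_cast
      ring
    rw [h2]
    simp

theorem parseval (S : Finset ℕ) (c : ℕ → ℂ) :
    ∫ θ in (0 : ℝ)..(2 * Real.pi), ‖∑ n ∈ S, c n * er θ n‖ ^ 2 = 2 * Real.pi * ∑ n ∈ S, ‖c n‖ ^ 2 := by
  have h1 : ∀ θ : ℝ, ((‖∑ n ∈ S, c n * er θ n‖ ^ 2 : ℝ) : ℂ) =
      ∑ n ∈ S, ∑ m ∈ S, c n * (starRingEnd ℂ) (c m) * er θ (((n : ℤ) - (m : ℤ) : ℤ) : ℝ) := by
    intro θ
    rw [Complex.ofReal_pow, ← Complex.mul_conj', map_sum, sum_mul_sum]
    refine sum_congr rfl fun n _ => sum_congr rfl fun m _ => ?_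
    rw [map_mul, er_conj]
    have : (((n : ℤ) - (m : ℤ) : ℤ) : ℝ) = (n : ℝ) + (-(m : ℝ)) := by push_cast; ring
    rw [this, er_add]
    ring
  have h2 : ((∫ θ in (0 : ℝ)..(2 * Real.pi), ‖∑ n ∈ S, c n * er θ n‖ ^ 2 : ℝ) : ℂ) =
      ((2 * Real.pi * ∑ n ∈ S, ‖c n‖ ^ 2 : ℝ) : ℂ) := by
    rw [← intervalIntegral.integral_ofReal]
    simp only [h1]
    rw [intervalIntegral.integral_finsetSum]
    · have h3 : ∀ n ∈ S, ∫ θ in (0 : ℝ)..(2 * Real.pi), ∑ m ∈ S, c n * (starRingEnd ℂ) (c m) *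
          er θ (((n : ℤ) - (m : ℤ) : ℤ) : ℝ) = 2 * Real.pi * (‖c n‖ ^ 2 : ℝ) := by
        intro n hn
        rw [intervalIntegral.integral_finsetSum]
        · rw [sum_eq_single n]
          · rw [intervalIntegral.integral_const_mul, int_er, if_pos (sub_self _), Complex.mul_conj']
            push_cast
            ring
          · intro m _ hmn
            rw [intervalIntegral.integral_const_mul, int_er, if_neg, mul_zero]
            intro h
            apply hmn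
            omega
          · intro h
            exact absurd hn h
        · intro m _
          exact ((er_cont _).const_mul _).intervalIntegrable _ _
      rw [sum_congr rfl h3, ← mul_sum]
      push_cast
      ring
    · intro n _
      exact (continuous_finsetSum _ fun m _ => (er_cont _).const_mul _).intervalIntegrable _ _
  exact_mod_cast h2

theorem parseval_e (S : Finset ℕ) (c : ℕ → ℂ) :
    ∫⁻ θ in Set.Ioc (0 : ℝ) (2 * Real.pi), ‖∑ n ∈ S, c n * er θ n‖ₑ ^ 2 =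
      ENNReal.ofReal (2 * Real.pi * ∑ n ∈ S, ‖c n‖ ^ 2) := by
  have hc : Continuous fun θ => ‖∑ n ∈ S, c n * er θ n‖ ^ 2 :=
    ((continuous_finsetSum _ fun m _ => (er_cont _).const_mul _).norm).pow 2
  rw [← parseval, intervalIntegral.integral_of_le (by positivity), ofReal_integral_eq_lintegral_ofReal
    ((hc.intervalIntegrable 0 (2 * Real.pi)).1) (Filter.Eventually.of_forall fun s => by positivity)]
  refine lintegral_congr fun s => ?_
  rw [ENNReal.ofReal_pow (norm_nonneg _), ofReal_norm]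

/-- the coefficients of the product -/
noncomputable def cc (N : ℕ) (a d : ℕ → ℂ) (n : ℕ) : ℂ :=
  ∑ p ∈ (Icc 1 N ×ˢ Icc 1 N).filter (fun p => p.1 + p.2 = n), a p.1 * d p.2

theorem cc_prod (N : ℕ) (a d : ℕ → ℂ) (θ : ℝ) :
    (∑ m ∈ Icc 1 N, a m * er θ m) * (∑ l ∈ Icc 1 N, er θ l * d l) =
      ∑ n ∈ range (2 * N + 1), cc N a d n * er θ n := by
  unfold cc
  have h1 : ∀ n ∈ range (2 * N + 1), (∑ p ∈ (Icc 1 N ×ˢ Icc 1 N).filter (fun p => p.1 + p.2 = n),
      a p.1 * d p.2) * er θ n = ∑ p ∈ (Icc 1 N ×ˢ Icc 1 N).filter (fun p => p.1 + p.2 = n),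
      (a p.1 * er θ p.1) * (er θ p.2 * d p.2) := by
    intro n _
    rw [sum_mul]
    refine sum_congr rfl fun p hp => ?_
    rw [mem_filter] at hp
    rw [← hp.2]
    push_cast
    rw [er_add]
    ring
  rw [sum_congr rfl h1, sum_fiberwise_of_maps_to, sum_mul_sum, ← sum_product']
  intro p hp
  rw [mem_product, mem_Icc, mem_Icc] at hp
  rw [mem_range]
  omega

theorem cc_eq (N : ℕ) (a d : ℕ → ℂ) (n : ℕ) (hn : n ∈ Icc 1 N) :
    cc N a d n = ∑ l ∈ Ico 1 n, a (n - l) * d l := by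
  unfold cc
  rw [mem_Icc] at hn
  refine sum_nbij' (fun p => p.2) (fun l => (n - l, l)) ?_ ?_ ?_ ?_ ?_
  · intro p hp
    rw [mem_filter, mem_product, mem_Icc, mem_Icc] at hp
    rw [mem_Ico]
    omega
  · intro l hl
    rw [mem_Ico] at hl
    rw [mem_filter, mem_product, mem_Icc, mem_Icc]
    simp only
    omega
  · intro p hp
    rw [mem_filter, mem_product, mem_Icc, mem_Icc] at hp
    refine Prod.ext ?_ rfl
    simp only
    omega
  · intro l _
    rfl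
  · intro p hp
    rw [mem_filter, mem_product, mem_Icc, mem_Icc] at hp
    have : n - p.2 = p.1 := by omega
    rw [this]

theorem pointwise_par (N : ℕ) (a d : ℕ → ℂ) :
    ∑ n ∈ Icc 1 N, ‖∑ l ∈ Ico 1 n, a (n - l) * d l‖ₑ ^ 2 ≤ ENNReal.ofReal (1 / (2 * Real.pi)) *
      ∫⁻ θ in Set.Ioc (0 : ℝ) (2 * Real.pi), ‖∑ m ∈ Icc 1 N, a m * er θ m‖ₑ ^ 2 *
        ‖∑ l ∈ Icc 1 N, er θ l * d l‖ₑ ^ 2 := by
  have hpi := Real.pi_pos
  have h1 : ∀ θ : ℝ, ‖∑ m ∈ Icc 1 N, a m * er θ m‖ₑ ^ 2 * ‖∑ l ∈ Icc 1 N, er θ l * d l‖ₑ ^ 2 =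
      ‖∑ n ∈ range (2 * N + 1), cc N a d n * er θ n‖ₑ ^ 2 := by
    intro θ
    rw [← cc_prod, enorm_mul, mul_pow]
  simp only [h1]
  rw [parseval_e, ← ENNReal.ofReal_mul (by positivity)]
  have h2 : 1 / (2 * Real.pi) * (2 * Real.pi * ∑ n ∈ range (2 * N + 1), ‖cc N a d n‖ ^ 2) =
      ∑ n ∈ range (2 * N + 1), ‖cc N a d n‖ ^ 2 := by
    field_simp
  rw [h2]
  have h3 : ∑ n ∈ Icc 1 N, ‖∑ l ∈ Ico 1 n, a (n - l) * d l‖ₑ ^ 2 =
      ENNReal.ofReal (∑ n ∈ Icc 1 N, ‖cc N a d n‖ ^ 2) := by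
    rw [ENNReal.ofReal_sum_of_nonneg (fun n _ => by positivity)]
    refine sum_congr rfl fun n hn => ?_
    rw [cc_eq N a d n hn, ENNReal.ofReal_pow (norm_nonneg _), ofReal_norm]
  rw [h3]
  apply ENNReal.ofReal_le_ofReal
  apply sum_le_sum_of_subset_of_nonneg
  · intro n hn
    rw [mem_Icc] at hn
    rw [mem_range]
    omega
  · intro n _ _
    positivity

theorem t_PAR : S_PAR := by
  intro N Ω hΩ a D hD M hM hQ
  have hpi := Real.pi_pos
  have hmeas : Measurable (Function.uncurry fun (w θ : ℝ) => ‖∑ m ∈ Icc 1 N, a m * er θ m‖ₑ ^ 2 *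
        ‖∑ l ∈ Icc 1 N, er θ l * D w l‖ₑ ^ 2) := by
    have m1 : Measurable fun p : ℝ × ℝ => ‖∑ m ∈ Icc 1 N, a m * er p.2 m‖ₑ ^ 2 := by
      refine Measurable.pow_const (Measurable.enorm ?_) 2
      refine Finset.measurable_sum _ fun m _ => ?_
      exact measurable_const.mul ((er_cont _).measurable.comp measurable_snd)
    have m2 : Measurable fun p : ℝ × ℝ => ‖∑ l ∈ Icc 1 N, er p.2 l * D p.1 l‖ₑ ^ 2 := by
      refine Measurable.pow_const (Measurable.enorm ?_) 2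
      refine Finset.measurable_sum _ fun l _ => ?_
      exact ((er_cont _).measurable.comp measurable_snd).mul ((hD l).comp measurable_fst)
    exact m1.mul m2
  calc ∫⁻ w in Ω, ∑ n ∈ Icc 1 N, ‖∑ l ∈ Ico 1 n, a (n - l) * D w l‖ₑ ^ 2
      ≤ ∫⁻ w in Ω, ENNReal.ofReal (1 / (2 * Real.pi)) *
          ∫⁻ θ in Set.Ioc (0 : ℝ) (2 * Real.pi), ‖∑ m ∈ Icc 1 N, a m * er θ m‖ₑ ^ 2 *
            ‖∑ l ∈ Icc 1 N, er θ l * D w l‖ₑ ^ 2 :=
        lintegral_mono fun w => pointwise_par N a (D w)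
    _ = ENNReal.ofReal (1 / (2 * Real.pi)) * ∫⁻ w in Ω,
          ∫⁻ θ in Set.Ioc (0 : ℝ) (2 * Real.pi), ‖∑ m ∈ Icc 1 N, a m * er θ m‖ₑ ^ 2 *
            ‖∑ l ∈ Icc 1 N, er θ l * D w l‖ₑ ^ 2 := lintegral_const_mul' _ _ ENNReal.ofReal_ne_top
    _ = ENNReal.ofReal (1 / (2 * Real.pi)) * ∫⁻ θ in Set.Ioc (0 : ℝ) (2 * Real.pi),
          ∫⁻ w in Ω, ‖∑ m ∈ Icc 1 N, a m * er θ m‖ₑ ^ 2 *
            ‖∑ l ∈ Icc 1 N, er θ l * D w l‖ₑ ^ 2 := by
        rw [lintegral_lintegral_swap hmeas.aemeasurable]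
    _ ≤ ENNReal.ofReal (1 / (2 * Real.pi)) * ∫⁻ θ in Set.Ioc (0 : ℝ) (2 * Real.pi),
          ‖∑ m ∈ Icc 1 N, a m * er θ m‖ₑ ^ 2 * ENNReal.ofReal M := by
        gcongr with θ
        rw [lintegral_const_mul']
        · gcongr
          exact hQ θ
        · exact ENNReal.pow_ne_top enorm_ne_top
    _ = ENNReal.ofReal (M * ∑ m ∈ Icc 1 N, ‖a m‖ ^ 2) := by
        rw [lintegral_mul_const' _ _ ENNReal.ofReal_ne_top, parseval_e, ← ENNReal.ofReal_mul (by positivity),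
          ← ENNReal.ofReal_mul (by positivity)]
        congr 1
        field_simp

end Pool.Agent.D0H12.UB
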